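import Mathlib

/-!
# McKay-type Bessel densities are never hyperbolically completely monotone: statements
-/

set_option autoImplicit false

namespace Pool.Agent.Helper79K9.HCM

open Real

/-- `F μ t = ∑ t ^ k / (k! Γ(k + μ + 1))`, so that `I_μ(x) = (x / 2) ^ μ F μ (x ^ 2 / 4)` -/
noncomputable def F (μ t : ℝ) : ℝ := ∑' k : ℕ, t ^ k / ((k.factorial : ℝ) * Real.Gamma (μ + k + 1))

/-- ZERO: `F μ` has a negative zero. Proof: `y t = F μ (-t)`, `y₁ t = F (μ + 1) (-t)`; `y' = - y₁` and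
`(t ^ (μ + 1) y₁)' = t ^ μ y`. If `y` has no zero, then `y > 0` on `[0, ∞)`, `t ^ (μ + 1) y₁` is increasing
and positive, so `y₁ ≥ c t ^ (-μ - 1)` for `t ≥ 1` and `y` is decreasing; `M = t ^ (μ + 1) (y₁ - y / (μ + 1))`
has `M' = t ^ (μ + 1) y₁ / (μ + 1) ≥ 0`, so `y₁ ≥ y / (μ + 1)` and `y t ≤ y 0 exp (- t / (μ + 1))`. But
`y t ≥ y t - y (2 t) ≥ c t (2 t) ^ (-μ - 1)`: contradiction for large `t`. -/
def S_ZERO : Prop := ∀ μ : ℝ, -1 < μ → ∃ t : ℝ, 0 < t ∧ F μ (-t) = 0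

end Pool.Agent.Helper79K9.HCM
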