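import Pool.Agent.Helper79K9.HCM.Defs

/-!
# The modified Bessel series has a negative zero

`y t = F μ (-t)`, `y₁ t = F (μ + 1) (-t)` satisfy `y' = - y₁` and `t y₁' = y - (μ + 1) y₁`. If `y` has
no zero then `y > 0`, `y₁ > 0` and `q = y / y₁` satisfies
`q' = -1 + q (μ + 1 - q) / t ≤ -1 + (μ + 1) ^ 2 / (4 t)`, so `q` becomes negative.
-/

set_option autoImplicit false

namespace Pool.Agent.Helper79K9.HCM

open Real

namespace ZeroL

variable {μ : ℝ}

lemma gam_pos (hμ : -1 < μ) (k : ℕ) : 0 < Real.Gamma (μ + k + 1) := by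
  apply Real.Gamma_pos_of_pos
  have : (0 : ℝ) ≤ k := Nat.cast_nonneg k
  linarith

lemma gam_step (hμ : -1 < μ) (k : ℕ) :
    Real.Gamma (μ + (k + 1 : ℕ) + 1) = (μ + k + 1) * Real.Gamma (μ + k + 1) := by
  have : (0 : ℝ) ≤ k := Nat.cast_nonneg k
  have h : μ + k + 1 ≠ 0 := by linarith
  rw [← Real.Gamma_add_one h]
  congr 1
  push_cast
  ring

lemma exists_low (hμ : -1 < μ) : ∃ c : ℝ, 0 < c ∧ ∀ k : ℕ, c ≤ Real.Gamma (μ + k + 1) := by
  refine ⟨min (Real.Gamma (μ + (0 : ℕ) + 1)) (Real.Gamma (μ + (1 : ℕ) + 1)),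
    lt_min (gam_pos hμ 0) (gam_pos hμ 1), ?_⟩
  intro k
  rcases Nat.eq_zero_or_pos k with rfl | hk
  · exact min_le_left _ _
  · induction k, hk using Nat.le_induction with
    | base => exact min_le_right _ _
    | succ n hn ih =>
      rw [gam_step hμ n]
      have h1 : (1 : ℝ) ≤ n := by exact_mod_cast hn
      have h2 := gam_pos hμ n
      nlinarith [mul_le_mul_of_nonneg_right (show (1 : ℝ) ≤ μ + n + 1 by linarith) h2.le]

lemma summ (hμ : -1 < μ) (t : ℝ) :
    Summable fun k : ℕ => t ^ k / ((k.factorial : ℝ) * Real.Gamma (μ + k + 1)) := by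
  obtain ⟨c, hc, hlow⟩ := exists_low hμ
  have h1 : Summable fun k : ℕ => c⁻¹ * (|t| ^ k / (k.factorial : ℝ)) :=
    (Real.summable_pow_div_factorial |t|).mul_left _
  refine Summable.of_norm_bounded h1 fun k => ?_
  have hk : (0 : ℝ) < (k.factorial : ℝ) := by exact_mod_cast k.factorial_pos
  have hg := gam_pos hμ k
  rw [Real.norm_eq_abs, abs_div, abs_pow, abs_of_pos (mul_pos hk hg)]
  rw [show c⁻¹ * (|t| ^ k / (k.factorial : ℝ)) = |t| ^ k / ((k.factorial : ℝ) * c) by
    field_simp]
  apply div_le_div_of_nonneg_left (by positivity) (by positivity)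
  exact mul_le_mul_of_nonneg_left (hlow k) hk.le

lemma hasDeriv (hμ : -1 < μ) (t : ℝ) : HasDerivAt (F μ) (F (μ + 1) t) t := by
  obtain ⟨c, hc, hlow⟩ := exists_low hμ
  set R : ℝ := |t| + 1 with hR
  have hR0 : 0 ≤ R := by positivity
  let g : ℕ → ℝ → ℝ := fun k z => z ^ k / ((k.factorial : ℝ) * Real.Gamma (μ + k + 1))
  let g' : ℕ → ℝ → ℝ := fun k z => (k * z ^ (k - 1)) / ((k.factorial : ℝ) * Real.Gamma (μ + k + 1))
  let u : ℕ → ℝ := fun k => (k * R ^ (k - 1)) / ((k.factorial : ℝ) * c)
  have hu : Summable u := by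
    rw [← summable_nat_add_iff 1]
    have h1 : Summable fun k : ℕ => c⁻¹ * (R ^ k / (k.factorial : ℝ)) :=
      (Real.summable_pow_div_factorial R).mul_left _
    refine h1.congr fun k => ?_
    have hk : (k.factorial : ℝ) ≠ 0 := by exact_mod_cast k.factorial_pos.ne'
    have hk1 : ((k : ℝ) + 1) ≠ 0 := by positivity
    simp only [u, Nat.add_sub_cancel, Nat.factorial_succ]
    push_cast
    field_simp
  have key := hasDerivAt_tsum_of_isPreconnected (𝕜 := ℝ) (g := g) (g' := g') (u := u)
    (t := Metric.ball (0 : ℝ) R) (y₀ := t) (y := t) hu Metric.isOpen_ball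
    (convex_ball (0 : ℝ) R).isPreconnected
    (fun k z _ => by
      have := (hasDerivAt_pow k z).div_const ((k.factorial : ℝ) * Real.Gamma (μ + k + 1))
      simpa [g, g'] using this)
    (fun k z hz => by
      have hk : (0 : ℝ) < (k.factorial : ℝ) := by exact_mod_cast k.factorial_pos
      have hg := gam_pos hμ k
      have hz' : |z| ≤ R := by
        have := Metric.mem_ball.1 hz
        rw [dist_zero_right, Real.norm_eq_abs] at this
        exact this.le
      simp only [g', u]
      rw [Real.norm_eq_abs, abs_div, abs_of_pos (mul_pos hk hg), abs_mul, abs_pow,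
        abs_of_nonneg (Nat.cast_nonneg k : (0 : ℝ) ≤ k)]
      apply div_le_div₀ (by positivity)
        (mul_le_mul_of_nonneg_left (pow_le_pow_left₀ (abs_nonneg z) hz' _) (Nat.cast_nonneg k))
        (by positivity)
      exact mul_le_mul_of_nonneg_left (hlow k) hk.le)
    (by
      rw [Metric.mem_ball, dist_zero_right, Real.norm_eq_abs]
      linarith)
    (summ hμ t)
    (by
      rw [Metric.mem_ball, dist_zero_right, Real.norm_eq_abs]
      linarith)
  have hsum' : Summable fun k => g' k t := by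
    refine Summable.of_norm_bounded hu fun k => ?_
    have hk : (0 : ℝ) < (k.factorial : ℝ) := by exact_mod_cast k.factorial_pos
    have hg := gam_pos hμ k
    have hz' : |t| ≤ R := by linarith
    simp only [g', u]
    rw [Real.norm_eq_abs, abs_div, abs_of_pos (mul_pos hk hg), abs_mul, abs_pow,
      abs_of_nonneg (Nat.cast_nonneg k : (0 : ℝ) ≤ k)]
    apply div_le_div₀ (by positivity)
      (mul_le_mul_of_nonneg_left (pow_le_pow_left₀ (abs_nonneg t) hz' _) (Nat.cast_nonneg k))
      (by positivity)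
    exact mul_le_mul_of_nonneg_left (hlow k) hk.le
  have hval : ∑' k, g' k t = F (μ + 1) t := by
    rw [hsum'.tsum_eq_zero_add]
    simp only [g', F]
    rw [show ((0 : ℕ) : ℝ) * t ^ (0 - 1) / (((Nat.factorial 0 : ℕ) : ℝ) *
      Real.Gamma (μ + (0 : ℕ) + 1)) = 0 by simp, zero_add]
    refine tsum_congr fun k => ?_
    have hk : (k.factorial : ℝ) ≠ 0 := by exact_mod_cast k.factorial_pos.ne'
    have hk1 : ((k : ℝ) + 1) ≠ 0 := by positivity
    have e : μ + 1 + (k : ℝ) + 1 = μ + ((k + 1 : ℕ) : ℝ) + 1 := by push_cast; ring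
    have hg := (gam_pos hμ (k + 1)).ne'
    rw [e]
    simp only [Nat.add_sub_cancel, Nat.factorial_succ]
    push_cast at hg ⊢
    field_simp
  rw [hval] at key
  exact key

lemma rec_rel (hμ : -1 < μ) (t : ℝ) : (μ + 1) * F (μ + 1) t + t * F (μ + 2) t = F μ t := by
  have h1 : -1 < μ + 1 := by linarith
  have h2 : -1 < μ + 2 := by linarith
  have s1 := (summ h1 t).mul_left (μ + 1)
  have s2 := (summ h2 t).mul_left t
  -- the second series, shifted
  let v : ℕ → ℝ := fun k => k * t ^ k / ((k.factorial : ℝ) * Real.Gamma (μ + 1 + k + 1))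
  have e2 : ∀ k : ℕ, t * (t ^ k / ((k.factorial : ℝ) * Real.Gamma (μ + 2 + k + 1))) = v (k + 1) := by
    intro k
    have hk : (k.factorial : ℝ) ≠ 0 := by exact_mod_cast k.factorial_pos.ne'
    have hk1 : ((k : ℝ) + 1) ≠ 0 := by positivity
    have e : μ + 2 + (k : ℝ) + 1 = μ + 1 + ((k + 1 : ℕ) : ℝ) + 1 := by push_cast; ring
    have hg := (gam_pos h1 (k + 1)).ne'
    simp only [v]
    rw [e, Nat.factorial_succ]
    push_cast at hg ⊢
    field_simp
    ring
  have sv : Summable v := by
    rw [← summable_nat_add_iff 1]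
    exact s2.congr e2
  have hv : t * F (μ + 2) t = ∑' k, v k := by
    rw [sv.tsum_eq_zero_add]
    have : v 0 = 0 := by simp [v]
    rw [this, zero_add]
    unfold F
    rw [← tsum_mul_left]
    exact tsum_congr e2
  rw [hv]
  unfold F
  rw [← tsum_mul_left, ← s1.tsum_add sv]
  refine tsum_congr fun k => ?_
  have hk : (k.factorial : ℝ) ≠ 0 := by exact_mod_cast k.factorial_pos.ne'
  have hg := (gam_pos hμ k).ne'
  have hk0 : (0 : ℝ) ≤ k := Nat.cast_nonneg k
  have hm : μ + k + 1 ≠ 0 := by linarith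
  have e : Real.Gamma (μ + 1 + k + 1) = (μ + k + 1) * Real.Gamma (μ + k + 1) := by
    rw [← gam_step hμ k]
    congr 1
    push_cast
    ring
  simp only [v]
  rw [e]
  field_simp
  ring

lemma F_zero (hμ : -1 < μ) : 0 < F μ 0 := by
  have h : F μ 0 = 1 / Real.Gamma (μ + 1) := by
    unfold F
    rw [tsum_eq_single 0]
    · simp
    · intro k hk
      simp [hk]
  rw [h]
  have := Real.Gamma_pos_of_pos (show (0 : ℝ) < μ + 1 by linarith)
  positivity

end ZeroL

open ZeroL in
theorem zero : S_ZERO := by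
  intro μ hμ
  by_contra hcon
  push Not at hcon
  have h1 : -1 < μ + 1 := by linarith
  have hm : 0 < μ + 1 := by linarith
  let y : ℝ → ℝ := fun t => F μ (-t)
  let y₁ : ℝ → ℝ := fun t => F (μ + 1) (-t)
  let y₂ : ℝ → ℝ := fun t => F (μ + 2) (-t)
  have dy : ∀ t, HasDerivAt y (-(y₁ t)) t := by
    intro t
    have := (hasDeriv hμ (-t)).comp t (hasDerivAt_neg t)
    exact HasDerivAt.congr_deriv this (by simp [y₁])
  have dy₁ : ∀ t, HasDerivAt y₁ (-(y₂ t)) t := by
    intro t
    have := (hasDeriv h1 (-t)).comp t (hasDerivAt_neg t)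
    have e : μ + 1 + 1 = μ + 2 := by ring
    exact HasDerivAt.congr_deriv this (by simp [y₂, e])
  have rel : ∀ t, t * y₂ t = (μ + 1) * y₁ t - y t := by
    intro t
    have := rec_rel hμ (-t)
    simp only [y, y₁, y₂]
    linarith
  have cy : Continuous y := continuous_iff_continuousAt.2 fun t => (dy t).continuousAt
  have cy₁ : Continuous y₁ := continuous_iff_continuousAt.2 fun t => (dy₁ t).continuousAt
  have y0 : 0 < y 0 := by simpa [y] using F_zero hμ
  have ypos : ∀ t, 0 ≤ t → 0 < y t := by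
    intro t ht
    by_contra hneg
    push Not at hneg
    have := intermediate_value_Icc' ht cy.continuousOn
    obtain ⟨s, hs, hs0⟩ := this ⟨hneg, y0.le⟩
    have hs1 : 0 < s := by
      rcases hs.1.eq_or_lt with h | h
      · rw [← h] at hs0
        exact absurd hs0 y0.ne'
      · exact h
    exact hcon s hs1 hs0
  -- N = t ^ (μ + 1) y₁ is strictly increasing
  let N : ℝ → ℝ := fun t => t ^ (μ + 1) * y₁ t
  have dN : ∀ t, 0 < t → HasDerivAt N (t ^ μ * y t) t := by
    intro t ht
    have a1 : HasDerivAt (fun s : ℝ => s ^ (μ + 1)) ((μ + 1) * t ^ (μ + 1 - 1)) t :=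
      Real.hasDerivAt_rpow_const (Or.inl ht.ne')
    have a2 := a1.mul (dy₁ t)
    refine a2.congr_deriv ?_
    have e1 : t ^ (μ + 1 - 1) = t ^ μ := by congr 1; ring
    have e2 : t ^ (μ + 1) = t ^ μ * t := by rw [Real.rpow_add_one ht.ne']
    rw [e1, e2]
    have := rel t
    linear_combination (-(t ^ μ)) * this
  have cN : ContinuousOn N (Set.Ici 0) := by
    apply ContinuousOn.mul _ cy₁.continuousOn
    exact (Real.continuous_rpow_const hm.le).continuousOn
  have Nmono : StrictMonoOn N (Set.Ici 0) := by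
    apply strictMonoOn_of_deriv_pos (convex_Ici 0) cN
    intro t ht
    rw [interior_Ici] at ht
    have ht' : 0 < t := ht
    rw [(dN t ht').deriv]
    exact mul_pos (Real.rpow_pos_of_pos ht' _) (ypos t ht'.le)
  have y₁pos : ∀ t, 0 < t → 0 < y₁ t := by
    intro t ht
    have h0 : N 0 = 0 := by
      simp only [N]
      rw [Real.zero_rpow hm.ne', zero_mul]
    have := Nmono (Set.mem_Ici.2 le_rfl) (Set.mem_Ici.2 ht.le) ht
    rw [h0] at this
    exact (pos_iff_pos_of_mul_pos this).1 (Real.rpow_pos_of_pos ht _)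
  -- the quotient
  let q : ℝ → ℝ := fun t => y t / y₁ t
  let T : ℝ := (μ + 1) ^ 2 + 1
  have hT : 0 < T := by positivity
  have dq : ∀ t, 0 < t → HasDerivAt q ((-(y₁ t) * y₁ t - y t * (-(y₂ t))) / (y₁ t) ^ 2) t := by
    intro t ht
    exact (dy t).div (dy₁ t) (y₁pos t ht).ne'
  have hle := Convex.image_sub_le_mul_sub_of_deriv_le (convex_Ici T) (f := q) (C := -(1 / 2))
    (fun t ht => ((dq t (lt_of_lt_of_le hT ht)).continuousAt).continuousWithinAt)
    (fun t ht => by
      rw [interior_Ici] at ht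
      exact (dq t (hT.trans ht)).differentiableAt.differentiableWithinAt)
    (fun t ht => by
      rw [interior_Ici] at ht
      have htT : T < t := ht
      have ht0 : 0 < t := hT.trans ht
      rw [(dq t ht0).deriv]
      have hy1 := y₁pos t ht0
      rw [div_le_iff₀ (by positivity)]
      have hr := rel t
      have hmul : t * (-(y₁ t) * y₁ t - y t * (-(y₂ t))) ≤ t * (-(1 / 2) * y₁ t ^ 2) := by
        have e : t * (-(y₁ t) * y₁ t - y t * (-(y₂ t)))
            = -t * y₁ t ^ 2 + y t * ((μ + 1) * y₁ t - y t) := by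
          rw [← hr]; ring
        rw [e]
        have hTt : (μ + 1) ^ 2 ≤ t := by
          have : T = (μ + 1) ^ 2 + 1 := rfl
          linarith
        nlinarith [sq_nonneg (y t - (μ + 1) * y₁ t / 2),
          mul_le_mul_of_nonneg_right hTt (sq_nonneg (y₁ t)), sq_nonneg (y₁ t)]
      exact le_of_mul_le_mul_left hmul ht0)
    T (Set.mem_Ici.2 le_rfl) (T + 2 * q T + 2)
    (by
      have : 0 < q T := div_pos (ypos T hT.le) (y₁pos T hT)
      exact Set.mem_Ici.2 (by linarith))
    (by
      have : 0 < q T := div_pos (ypos T hT.le) (y₁pos T hT)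
      linarith)
  have hqT : 0 < q T := div_pos (ypos T hT.le) (y₁pos T hT)
  have hq2 : 0 < q (T + 2 * q T + 2) :=
    div_pos (ypos _ (by positivity)) (y₁pos _ (by positivity))
  nlinarith

end Pool.Agent.Helper79K9.HCM
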